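import Pool.Agent.Helper64.FL.StG

/-! Full list for MP_866009_co: module CA0. -/

set_option autoImplicit false

namespace Pool.Agent.Helper64.FL

open Pool.Agent.Helper64.CT Pool.Agent.Helper64.DT
open Pool.Agent.Helper64.HG (Ovl Model Circ IC HellyCircle ChordModel)

private theorem ca0_pth {V : Type} (G : SimpleGraph V) {a w : V} {l : List V} (h : Pth G a l w)
    (hne : a ≠ w) : IPt G (a :: (l ++ [w])) := by
  rcases h with h | h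
  · exact absurd h.1 hne
  · exact h.2

theorem st_CA0 (hC : ST_CIB) (hP : ST_PTB) : ST_CA0 := by
  intro V G hN v a b c hv o la0 lb0 lc0 hcl hoa hob hoc oa ob oc
  obtain ⟨-, hCI, -⟩ := hC V G
  obtain ⟨-, -, hab, hac, hbc, nab, nac, nbc, -⟩ := hCI _ _ _ _ _ hv
  obtain ⟨-, hnd, hcons, hnil, -⟩ := hP V G
  have key : ∀ l w, Pth G o l w → o ≠ w → ¬ G.Adj o w → ∃ z l', l = z :: l' := by
    intro l w h h1 h2
    cases l with
    | nil => rcases hnil o w h with h | h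
             · exact absurd h h1
             · exact absurd h h2
    | cons z l' => exact ⟨z, l', rfl⟩
  obtain ⟨a1, la, rfl⟩ := key _ _ hcl.pa oa hoa
  obtain ⟨b1, lb, rfl⟩ := key _ _ hcl.pb ob hob
  obtain ⟨c1, lc, rfl⟩ := key _ _ hcl.pc oc hoc
  obtain ⟨oa1, -, -, a1a, pa, oal⟩ := hcons _ _ _ _ hcl.pa
  obtain ⟨ob1, -, -, b1b, pb, obl⟩ := hcons _ _ _ _ hcl.pb
  obtain ⟨oc1, -, -, c1c, pc, ocl⟩ := hcons _ _ _ _ hcl.pc
  obtain ⟨a1l, al, -⟩ := hnd _ _ _ pa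
  obtain ⟨b1l, bl, -⟩ := hnd _ _ _ pb
  obtain ⟨c1l, cl, -⟩ := hnd _ _ _ pc
  have ov : v ≠ o := fun h => hcl.oS h.symm
  have inv : ∀ u, (u ∈ a1 :: la ∨ u ∈ b1 :: lb ∨ u ∈ c1 :: lc) → v ≠ u := by
    intro u hu h
    refine hcl.inS u ?_ h.symm
    rcases hu with h1 | h1 | h1
    · exact Or.inl h1
    · exact Or.inr (Or.inl h1)
    · exact Or.inr (Or.inr (Or.inl h1))
  have a1m : a1 ∈ a1 :: la := List.mem_cons_self
  have b1m : b1 ∈ b1 :: lb := List.mem_cons_self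
  have c1m : c1 ∈ c1 :: lc := List.mem_cons_self
  have lam : ∀ u ∈ la, u ∈ a1 :: la := fun u h => List.mem_cons_of_mem _ h
  have lbm : ∀ u ∈ lb, u ∈ b1 :: lb := fun u h => List.mem_cons_of_mem _ h
  have lcm : ∀ u ∈ lc, u ∈ c1 :: lc := fun u h => List.mem_cons_of_mem _ h
  -- leg facts
  have AB : ∀ u ∈ a1 :: la, ∀ w ∈ b1 :: lb, u ≠ w ∧ ¬ G.Adj u w := fun u hu w hw =>
    hcl.ab u (Or.inl hu) w (Or.inl hw)
  have AC : ∀ u ∈ a1 :: la, ∀ w ∈ c1 :: lc, u ≠ w ∧ ¬ G.Adj u w := fun u hu w hw =>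
    hcl.ac u (Or.inl hu) w (Or.inl hw)
  have BC : ∀ u ∈ b1 :: lb, ∀ w ∈ c1 :: lc, u ≠ w ∧ ¬ G.Adj u w := fun u hu w hw =>
    hcl.bc u (Or.inl hu) w (Or.inl hw)
  have Ab : ∀ u ∈ a1 :: la, u ≠ b ∧ ¬ G.Adj u b := fun u hu =>
    hcl.ab u (Or.inl hu) b (Or.inr ⟨rfl, ob.symm⟩)
  have Ac : ∀ u ∈ a1 :: la, u ≠ c ∧ ¬ G.Adj u c := fun u hu =>
    hcl.ac u (Or.inl hu) c (Or.inr ⟨rfl, oc.symm⟩)
  have Bc : ∀ u ∈ b1 :: lb, u ≠ c ∧ ¬ G.Adj u c := fun u hu =>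
    hcl.bc u (Or.inl hu) c (Or.inr ⟨rfl, oc.symm⟩)
  have Ba : ∀ u ∈ b1 :: lb, a ≠ u ∧ ¬ G.Adj a u := fun u hu =>
    hcl.ab a (Or.inr ⟨rfl, oa.symm⟩) u (Or.inl hu)
  have Ca : ∀ u ∈ c1 :: lc, a ≠ u ∧ ¬ G.Adj a u := fun u hu =>
    hcl.ac a (Or.inr ⟨rfl, oa.symm⟩) u (Or.inl hu)
  have Cb : ∀ u ∈ c1 :: lc, b ≠ u ∧ ¬ G.Adj b u := fun u hu =>
    hcl.bc b (Or.inr ⟨rfl, ob.symm⟩) u (Or.inl hu)
  have sy : ∀ {x y : V}, (x ≠ y ∧ ¬ G.Adj x y) → y ≠ x ∧ ¬ G.Adj y x :=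
    fun h => ⟨h.1.symm, fun h' => h.2 h'.symm⟩
  -- facts for the three segments
  have SA : ∀ u ∈ la, v ≠ u ∧ a ≠ u ∧ (b ≠ u ∧ ¬ G.Adj b u) ∧ (c ≠ u ∧ ¬ G.Adj c u) ∧
      (o ≠ u ∧ ¬ G.Adj o u) ∧ a1 ≠ u ∧ (b1 ≠ u ∧ ¬ G.Adj b1 u) ∧ (c1 ≠ u ∧ ¬ G.Adj c1 u) := by
    intro u hu
    exact ⟨inv u (Or.inl (lam u hu)), fun h => al (h ▸ hu), sy (Ab u (lam u hu)),
      sy (Ac u (lam u hu)), oal u hu, fun h => a1l (h ▸ hu), sy (AB u (lam u hu) b1 b1m),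
      sy (AC u (lam u hu) c1 c1m)⟩
  have SB : ∀ u ∈ lb, v ≠ u ∧ (a ≠ u ∧ ¬ G.Adj a u) ∧ b ≠ u ∧ (c ≠ u ∧ ¬ G.Adj c u) ∧
      (o ≠ u ∧ ¬ G.Adj o u) ∧ (a1 ≠ u ∧ ¬ G.Adj a1 u) ∧ b1 ≠ u ∧ (c1 ≠ u ∧ ¬ G.Adj c1 u) := by
    intro u hu
    exact ⟨inv u (Or.inr (Or.inl (lbm u hu))), Ba u (lbm u hu), fun h => bl (h ▸ hu),
      sy (Bc u (lbm u hu)), obl u hu, AB a1 a1m u (lbm u hu), fun h => b1l (h ▸ hu),
      sy (BC u (lbm u hu) c1 c1m)⟩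
  have SC : ∀ u ∈ lc, v ≠ u ∧ (a ≠ u ∧ ¬ G.Adj a u) ∧ (b ≠ u ∧ ¬ G.Adj b u) ∧ c ≠ u ∧
      (o ≠ u ∧ ¬ G.Adj o u) ∧ (a1 ≠ u ∧ ¬ G.Adj a1 u) ∧ (b1 ≠ u ∧ ¬ G.Adj b1 u) ∧ c1 ≠ u := by
    intro u hu
    exact ⟨inv u (Or.inr (Or.inr (lcm u hu))), Ca u (lcm u hu), Cb u (lcm u hu),
      fun h => cl (h ▸ hu), ocl u hu, AC a1 a1m u (lcm u hu), BC b1 b1m u (lcm u hu),
      fun h => c1l (h ▸ hu)⟩
  apply hN preA1c (by simp [preCIs])
    (fun i => ([v, a, b, c, o, a1, b1, c1] : List V).getD i v) [la, lb, lc]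
  refine ⟨?_, ?_, ?_, ?_, ?_, ?_, ?_, ?_, ?_, ?_, ?_⟩
  · simp [preA1c]
    exact ⟨hv.va, hv.vb, hv.vc, oa1, ob1, oc1⟩
  · have h1 := Ab a1 a1m
    have h2 := Ac a1 a1m
    have h3 := AB a1 a1m b1 b1m
    have h4 := AC a1 a1m c1 c1m
    have h5 := sy (Ba b1 b1m)
    have h6 := Bc b1 b1m
    have h7 := BC b1 b1m c1 c1m
    have h8 := sy (Ca c1 c1m)
    have h9 := sy (Cb c1 c1m)
    simp [preA1c]
    exact ⟨⟨hab, nab⟩, ⟨hac, nac⟩, ⟨hbc, nbc⟩, ⟨oa, hoa⟩, ⟨ob, hob⟩, ⟨oc, hoc⟩, h1, h2, h3, h4, h5,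
      h6, h7, h8, h9⟩
  · simp [preA1c]
    exact ⟨ov, inv _ (Or.inl a1m), inv _ (Or.inr (Or.inl b1m)), inv _ (Or.inr (Or.inr c1m)),
      a1a.symm, b1b.symm, c1c.symm⟩
  · simp [preA1c]
  · simp [preA1c]
  · simp [preA1c]
  · simp [preA1c]
    exact ⟨fun h => absurd h a1a, fun h => absurd h b1b, fun h => absurd h c1c⟩
  · simp [preA1c]
    exact ⟨fun h => ca0_pth G pa h, fun h => ca0_pth G pb h, fun h => ca0_pth G pc h⟩
  · intro y hy i hi hm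
    simp [preA1c] at hy hi
    rcases hy with rfl | rfl | rfl
    · obtain ⟨h0, h1, h2, h3, h4, h5, h6, h7⟩ := SA _ hm
      interval_cases i
      · exact h0 rfl
      · exact h1 rfl
      · exact h2.1 rfl
      · exact h3.1 rfl
      · exact h4.1 rfl
      · exact h5 rfl
      · exact h6.1 rfl
      · exact h7.1 rfl
    · obtain ⟨h0, h1, h2, h3, h4, h5, h6, h7⟩ := SB _ hm
      interval_cases i
      · exact h0 rfl
      · exact h1.1 rfl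
      · exact h2 rfl
      · exact h3.1 rfl
      · exact h4.1 rfl
      · exact h5.1 rfl
      · exact h6 rfl
      · exact h7.1 rfl
    · obtain ⟨h0, h1, h2, h3, h4, h5, h6, h7⟩ := SC _ hm
      interval_cases i
      · exact h0 rfl
      · exact h1.1 rfl
      · exact h2.1 rfl
      · exact h3 rfl
      · exact h4.1 rfl
      · exact h5.1 rfl
      · exact h6.1 rfl
      · exact h7 rfl
  · intro y hy i hi hU hu hw x hx
    simp [preA1c] at hy hi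
    rcases hy with rfl | rfl | rfl
    · obtain ⟨h0, h1, h2, h3, h4, h5, h6, h7⟩ := SA _ hx
      interval_cases i
      · exact absurd (by simp) hU
      · exact absurd rfl hw
      · exact h2.2
      · exact h3.2
      · exact h4.2
      · exact absurd rfl hu
      · exact h6.2
      · exact h7.2
    · obtain ⟨h0, h1, h2, h3, h4, h5, h6, h7⟩ := SB _ hx
      interval_cases i
      · exact absurd (by simp) hU
      · exact h1.2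
      · exact absurd rfl hw
      · exact h3.2
      · exact h4.2
      · exact h5.2
      · exact absurd rfl hu
      · exact h7.2
    · obtain ⟨h0, h1, h2, h3, h4, h5, h6, h7⟩ := SC _ hx
      interval_cases i
      · exact absurd (by simp) hU
      · exact h1.2
      · exact h2.2
      · exact absurd rfl hw
      · exact h4.2
      · exact h5.2
      · exact h6.2
      · exact absurd rfl hu
  · simp
    exact ⟨⟨fun x hx y hy => AB x (lam x hx) y (lbm y hy),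
      fun x hx y hy => AC x (lam x hx) y (lcm y hy)⟩,
      fun x hx y hy => BC x (lbm x hx) y (lcm y hy)⟩

end Pool.Agent.Helper64.FL
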