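import Pool.Agent.Helper64.FL.StH

/-! Full list for MP_866009_co: module D1A. -/

set_option autoImplicit false

namespace Pool.Agent.Helper64.FL

open Pool.Agent.Helper64.CT Pool.Agent.Helper64.DT
open Pool.Agent.Helper64.HG (Ovl Model Circ IC HellyCircle ChordModel)

theorem st_D1A (hA : ST_ARX) (hD : ST_D0F) (hS : ST_STB) : ST_D1A := by
  intro V G x k y u0 Lu um df hd p q hp hpR hq hqR
  have moc := hd.moc
  have k5 := moc.k5
  have ex : ∀ i, ∃ m, m ∈ Att G x (y i) ∧ m ∈ Att G x (y (i + 1)) := by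
    intro i
    obtain ⟨-, ⟨u, hu, ⟨m, hm, hum⟩, -⟩, -⟩ := moc.cf i
    exact ⟨m, ⟨hm.1, u, hu, hum.symm⟩, hm⟩
  choose N hN1 hN2 using ex
  obtain ⟨n, hn⟩ : ∃ n : ℕ → V, n = fun i => if i = 0 then p else if i = k - 1 then q else N i :=
    ⟨_, rfl⟩
  have n0 : n 0 = p := by rw [hn]; simp
  have nk : n (k - 1) = q := by
    rw [hn]
    simp only
    rw [if_neg (by omega), if_pos trivial]
  have nn : ∀ i, 1 ≤ i → i + 2 ≤ k → n i = N i := by
    intro i h1 h2
    rw [hn]
    simp only
    rw [if_neg (by omega), if_neg (by omega)]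
  have dsj := hd.dsj
  -- membership
  have mL : ∀ i, 1 ≤ i → i + 1 ≤ k → n i ∈ Att G x (y i) := by
    intro i h1 h2
    by_cases h : i = k - 1
    · rw [h, nk]
      exact hq
    · rw [nn i h1 (by omega)]
      exact hN1 i
  have mR : ∀ i, i + 2 ≤ k → n i ∈ Att G x (y (i + 1)) := by
    intro i h2
    by_cases h : i = 0
    · rw [h, n0]
      exact hp
    · rw [nn i (by omega) h2]
      exact hN2 i
  -- non-membership
  have nm : ∀ l j, 1 ≤ l → l < k → j < k → l ≠ j → l ≠ j + 1 → n j ∉ Att G x (y l) := by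
    intro l j h1 h2 h3 h4 h5 hmem
    rcases Nat.lt_or_ge l j with h | h
    · -- l < j
      by_cases hj : j = k - 1
      · rw [hj, nk] at hmem
        by_cases hl : l = 1
        · rw [hl] at hmem
          exact dsj 1 (k - 1) le_rfl (by omega) (by omega) q hmem hq
        · exact hqR ⟨l, by omega, by omega, hmem⟩
      · exact dsj l (j + 1) h1 (by omega) (by omega) (n j) hmem (mR j (by omega))
    · -- j + 2 ≤ l
      by_cases hj : j = 0
      · rw [hj, n0] at hmem
        by_cases hl : l = k - 1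
        · rw [hl] at hmem
          exact dsj 1 (k - 1) le_rfl (by omega) (by omega) p hp hmem
        · exact hpR ⟨l, by omega, by omega, hmem⟩
      · exact dsj j l (by omega) (by omega) h2 (n j) (mL j (by omega) (by omega)) hmem
  have inj : ∀ i j, i < j → j < k → n i ≠ n j := by
    intro i j h1 h2 h
    by_cases hj : i + 2 ≤ j
    · have h3 := mL j (by omega) (by omega)
      rw [← h] at h3
      exact nm j i (by omega) h2 (by omega) (by omega) (by omega) h3
    · have hji : j = i + 1 := by omega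
      subst hji
      by_cases hi : i = 0
      · subst hi
        have h3 := mR 1 (by omega)
        rw [← h] at h3
        exact nm 2 0 (by omega) (by omega) (by omega) (by omega) (by omega) h3
      · have h3 := mL i (by omega) (by omega)
        rw [h] at h3
        exact nm i (i + 1) (by omega) (by omega) h2 (by omega) (by omega) h3
  obtain ⟨P, hArc, hPc⟩ := hA V G x y n 0 (k - 1) (by omega)
    (fun i _ h2 => ⟨mR i (by omega), mL (i + 1) (by omega) (by omega)⟩)
    (fun i j _ h2 _ h4 h5 h6 => nm (i + 1) j (by omega) (by omega) (by omega) (by omega)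
      (by omega))
    (fun i j _ h2 h3 => inj i j h2 (by omega))
    (fun i j _ h2 h3 => moc.ncm i j h2 (by omega))
  have hRR : ∀ i, 1 ≤ i → i + 2 ≤ k → n i ∈ RR G x k y := by
    intro i h1 h2
    by_cases hi : i = 1
    · refine ⟨2, le_rfl, by omega, ?_⟩
      have h3 := mR i h2
      rw [hi] at h3 ⊢
      exact h3
    · exact ⟨i, by omega, h2, mL i h1 (by omega)⟩
  have hx : ∀ i, i < k → G.Adj x (n i) := by
    intro i h
    exact hArc.xn i (Nat.zero_le _) (by omega)
  obtain ⟨u, hu⟩ := (hD V G x k y moc hd.dom).1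
  have hua : ∀ i, i + 2 ≤ k → G.Adj u (n i) := by
    intro i h
    by_cases hi : i = 0
    · rw [hi, n0]
      exact hd.u1 u hu p hp
    · exact hu.2 _ (hRR i (by omega) h)
  have huf : u ≠ x ∧ ¬ G.Adj x u := by
    obtain ⟨-, hz, -⟩ := hu.1
    exact hz
  have nad : ∀ i j, i < j → j + 2 ≤ k → ¬ G.Adj (n i) (n j) := by
    intro i j h1 h2
    exact (hS V G df x u (n i) (n j) huf.1 (inj i j h1 (by omega)) (hx i (by omega))
      (hx j (by omega)) (hua i (by omega)) (hua j h2)).1 huf.2
  refine ⟨n, P, hArc, n0, nk, fun i h1 h2 => ⟨mL i h1 (by omega), mR i h2, hRR i h1 h2⟩,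
    fun i h u' hu' => hPc i (Nat.zero_le _) (by omega) u' hu', nad, ?_⟩
  intro i hi hqi j hj hji hqj
  have hxq : G.Adj x q := by
    rw [← nk]
    exact hx _ (by omega)
  rcases Nat.lt_or_gt_of_ne hji with h | h
  · exact nad j i h hi (df x q (n j) (n i) hxq (hx j (by omega)) hqj (hx i (by omega)) hqi
      (inj j i h (by omega)))
  · exact nad i j h hj (df x q (n i) (n j) hxq (hx i (by omega)) hqi (hx j (by omega)) hqj
      (inj i j h (by omega)))

end Pool.Agent.Helper64.FL
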