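import Pool.Agent.Helper64.FL.StC

/-! Full list for MP_866009_co, part 4: module VW4. -/

set_option autoImplicit false

namespace Pool.Agent.Helper64.FL

open Pool.Agent.Helper64.CT Pool.Agent.Helper64.DT
open Pool.Agent.Helper64.HG (Ovl Model Circ IC HellyCircle ChordModel)

variable {V : Type}

/-- an induced path is connected -/
theorem vw4_cn (hC : ST_CNB) (G : SimpleGraph V) (S : Set V) : ∀ (L : List V), IPt G L → (∀ u ∈ L, u ∈ S) →
    ∀ a ∈ L.head?, ∀ u ∈ L, Cn G S a u := by
  obtain ⟨c1, c2, c3, c4, c5, c6, c7⟩ := hC V G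
  intro L
  induction L with
  | nil =>
    intro _ _ a ha
    simp at ha
  | cons b l ih =>
    intro hL hS a ha u hu
    have hab : b = a := by simpa using ha
    subst hab
    have hbS : b ∈ S := hS b List.mem_cons_self
    obtain ⟨h1, h2, h3, h4⟩ := hL
    rcases List.mem_cons.mp hu with h | h
    · rw [h]
      exact ⟨hbS, Relation.ReflTransGen.refl⟩
    · cases l with
      | nil => simp at h
      | cons c l' =>
        have hc : c ∈ (c :: l').head? := by simp
        have h5 := ih h4 (fun v hv => hS v (List.mem_cons_of_mem _ hv)) c hc u h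
        have h6 : G.Adj b c := h2 c hc
        exact c2 S b c u (c4 S b c hbS (hS c (List.mem_cons_of_mem _ List.mem_cons_self)) h6) h5

theorem vw4_head (L : List V) (h : L ≠ []) : ∃ a, a ∈ L.head? ∧ a ∈ L := by
  cases L with
  | nil => exact absurd rfl h
  | cons a l => exact ⟨a, by simp, by simp⟩

theorem vw4_last (L : List V) (h : L ≠ []) : ∃ a, a ∈ L.getLast? ∧ a ∈ L := by
  refine ⟨L.getLast h, ?_, List.getLast_mem h⟩
  rw [List.getLast?_eq_getLast_of_ne_nil h]
  rfl

/-- the first step out of a property -/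
theorem vw4_step (p : ℕ → Prop) : ∀ (d a : ℕ), p a → ¬ p (a + d) → ∃ s, a ≤ s ∧ s < a + d ∧ p s ∧ ¬ p (s + 1) := by
  intro d
  induction d with
  | zero => intro a h1 h2; exact absurd h1 h2
  | succ d ih =>
    intro a h1 h2
    by_cases h3 : p (a + 1)
    · have h4 : ¬ p (a + 1 + d) := by
        rw [show a + 1 + d = a + (d + 1) by ring]; exact h2
      obtain ⟨s, e1, e2, e3, e4⟩ := ih (a + 1) h3 h4
      exact ⟨s, by omega, by omega, e3, e4⟩
    · exact ⟨a, le_rfl, by omega, h1, h3⟩

/-- joining induced paths -/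
theorem vw4_join (G : SimpleGraph V) : ∀ (A B : List V), IPt G A → IPt G B →
    (∀ u ∈ A, ∀ w ∈ B, u ≠ w ∧ (G.Adj u w ↔ A.getLast? = some u ∧ B.head? = some w)) → IPt G (A ++ B) := by
  intro A
  induction A with
  | nil => intro B _ hB _; exact hB
  | cons a l ih =>
    intro B hA hB h
    obtain ⟨h1, h2, h3, h4⟩ := hA
    cases l with
    | nil =>
      refine ⟨?_, ?_, ?_, hB⟩
      · intro x hx
        exact (h a List.mem_cons_self x hx).1
      · intro b hb
        have hb' : b ∈ B := by
          cases B with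
          | nil => simp at hb
          | cons b' l' =>
            have : b' = b := by simpa using hb
            rw [this]; exact List.mem_cons_self
        exact ((h a List.mem_cons_self b hb').2).mpr ⟨by simp, hb⟩
      · intro x hx hadj
        have hx' : x ∈ B := List.mem_of_mem_tail hx
        have h5 := ((h a List.mem_cons_self x hx').2.mp hadj).2
        cases B with
        | nil => simp at hx
        | cons b' l' =>
          have h6 : b' = x := by simpa using h5
          have h7 : x ∈ l' := by simpa using hx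
          exact hB.1 x h7 h6
    | cons c l' =>
      have hlast : (a :: c :: l').getLast? = (c :: l').getLast? := by
        rw [List.getLast?_cons_cons]
      have hne : ∀ w ∈ B, ¬ G.Adj a w := by
        intro w hw hadj
        have h5 := ((h a List.mem_cons_self w hw).2.mp hadj).1
        rw [hlast] at h5
        have h6 : a ∈ (c :: l') := List.mem_of_getLast? h5
        exact h1 a h6 rfl
      refine ⟨?_, ?_, ?_, ?_⟩
      · intro x hx
        rcases List.mem_append.mp hx with hx | hx
        · exact h1 x hx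
        · exact (h a List.mem_cons_self x hx).1
      · intro b hb
        exact h2 b (by simpa using hb)
      · intro x hx
        have hx' : x ∈ l' ∨ x ∈ B := by simpa using hx
        rcases hx' with hx' | hx'
        · exact h3 x (by simpa using hx')
        · exact hne x hx'
      · apply ih B h4 hB
        intro u hu w hw
        have h5 := h u (List.mem_cons_of_mem _ hu) w hw
        rw [hlast] at h5
        exact h5

/-- the common situation -/
structure VW4c (G : SimpleGraph V) (h : V) (n : ℕ → V) (P : ℕ → List V) (r : ℕ) : Prop where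
  red : Red G
  r4 : 4 ≤ r
  arc : Arc G h n P 0 (r + 1)
  nf : ∀ i, 1 ≤ i → i ≤ r → ¬ G.Adj (n 0) (n i) ∧ ¬ G.Adj (n (r + 1)) (n i)
  a1r : G.Adj (n 1) (n r)

/-- three ends of gaps in the clique of `n 1` -/
theorem vw4_F1 (hF : ST_F1X) (hC : ST_CNB) (G : SimpleGraph V) (h : V) (n : ℕ → V) (P : ℕ → List V) (r : ℕ)
    (hc : VW4c G h n P r) (c : ℕ) (c2 : 2 ≤ c) (cr : c < r) (k1 : G.Adj (n c) (n 1)) (kr : G.Adj (n c) (n r))
    (v0 l m : V) (v01 : v0 ∈ P 1) (lh : l ∈ Far G h) (lc : G.Adj (n c) l) (lv : l ≠ v0) (mv : m ≠ v0)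
    (mh : G.Adj h m) (l1 : l ∈ Far G (n 1)) (lr : l ∈ Far G (n r)) (m1 : m ∈ Far G (n 1)) (mr : m ∈ Far G (n r))
    (mc : m ∈ Far G (n c)) (n1 : Cn G ({v | v ≠ v0} ∩ Far G (n 1)) l m)
    (nr : Cn G ({v | v ≠ v0} ∩ Far G (n r)) l m) : False := by
  obtain ⟨red, r4, arc, nf, a1r⟩ := hc
  obtain ⟨c1, c2', c3, c4, c5, c6, c7⟩ := hC V G
  have v0h : v0 ∈ Far G h := arc.far 1 (by omega) (by omega) v0 v01
  have hv0 : h ≠ v0 := fun e => v0h.1 e.symm
  have nv0 : ∀ i, i ≤ r + 1 → n i ≠ v0 := by
    intro i hi e
    apply v0h.2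
    rw [← e]
    exact arc.xn i (by omega) hi
  have pv0 : ∀ i, i < r + 1 → i ≠ 1 → ∀ u ∈ P i, u ≠ v0 := by
    intro i hi hi1 u hu
    rcases lt_or_gt_of_ne hi1 with h1 | h1
    · exact (arc.sep i 1 (by omega) h1 (by omega) u hu v0 v01).1
    · exact fun e => (arc.sep 1 i (by omega) h1 hi v0 v01 u hu).1 e.symm
  have pf : ∀ i j, i < r + 1 → j ≤ r + 1 → j ≠ i → j ≠ i + 1 → ∀ u ∈ P i, u ∈ Far G (n j) := by
    intro i j hi hj h1 h2 u hu
    refine ⟨?_, arc.cln i j (by omega) hi (by omega) hj h1 h2 u hu⟩
    intro e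
    have h3 := arc.far i (by omega) hi u hu
    apply h3.2
    rw [e]
    exact arc.xn j (by omega) hj
  have n0f : ∀ i, 1 ≤ i → i ≤ r → n 0 ∈ Far G (n i) := fun i h1 h2 =>
    ⟨arc.inj 0 i (by omega) (by omega) (by omega), fun e => (nf i h1 h2).1 e.symm⟩
  have nrf : ∀ i, 1 ≤ i → i ≤ r → n (r + 1) ∈ Far G (n i) := fun i h1 h2 =>
    ⟨fun e => arc.inj i (r + 1) (by omega) (by omega) (by omega) e.symm, fun e => (nf i h1 h2).2 e.symm⟩
  -- the first and the last path
  obtain ⟨f0, f0h, f0m⟩ := vw4_head (P 0) (arc.ne 0 (by omega) (by omega))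
  obtain ⟨l0, l0h, l0m⟩ := vw4_last (P 0) (arc.ne 0 (by omega) (by omega))
  obtain ⟨fr, frh, frm⟩ := vw4_head (P r) (arc.ne r (by omega) (by omega))
  obtain ⟨lr', lrh, lrm⟩ := vw4_last (P r) (arc.ne r (by omega) (by omega))
  have a0 : G.Adj (n 0) f0 := (arc.fst 0 (by omega) (by omega) f0 f0m).mpr f0h
  have a1 : G.Adj (n 1) l0 := (arc.lst 0 (by omega) (by omega) l0 l0m).mpr l0h
  have a2 : G.Adj (n r) fr := (arc.fst r (by omega) (by omega) fr frm).mpr frh
  have a3 : G.Adj (n (r + 1)) lr' := (arc.lst r (by omega) (by omega) lr' lrm).mpr lrh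
  have cn0 : ∀ j, 2 ≤ j → j ≤ r → Cn G ({v | v ≠ v0} ∩ Far G (n j)) l0 (n 0) := by
    intro j h1 h2
    have hS : ∀ u ∈ P 0, u ∈ {v | v ≠ v0} ∩ Far G (n j) := fun u hu =>
      ⟨pv0 0 (by omega) (by omega) u hu, pf 0 j (by omega) (by omega) (by omega) (by omega) u hu⟩
    have e1 := vw4_cn hC G _ (P 0) (arc.ip 0 (by omega) (by omega)) hS f0 f0h l0 l0m
    have e2 : Cn G ({v | v ≠ v0} ∩ Far G (n j)) f0 (n 0) :=
      c4 _ f0 (n 0) (hS f0 f0m) ⟨nv0 0 (by omega), n0f j (by omega) h2⟩ a0.symm
    exact c2' _ _ _ _ (c1 _ _ _ e1).2 e2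
  have cnr : ∀ j, 1 ≤ j → j < r → Cn G ({v | v ≠ v0} ∩ Far G (n j)) fr (n (r + 1)) := by
    intro j h1 h2
    have hS : ∀ u ∈ P r, u ∈ {v | v ≠ v0} ∩ Far G (n j) := fun u hu =>
      ⟨pv0 r (by omega) (by omega) u hu, pf r j (by omega) (by omega) (by omega) (by omega) u hu⟩
    have e1 := vw4_cn hC G _ (P r) (arc.ip r (by omega) (by omega)) hS fr frh lr' lrm
    have e2 : Cn G ({v | v ≠ v0} ∩ Far G (n j)) lr' (n (r + 1)) :=
      c4 _ lr' (n (r + 1)) (hS lr' lrm) ⟨nv0 (r + 1) (by omega), nrf j (by omega) (by omega)⟩ a3.symm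
    exact c2' _ _ _ _ e1 e2
  refine hF V G {v | v ≠ v0} h (fun i => match i with | 0 => n 1 | 1 => n r | _ => n c)
    (fun i => match i with | 0 => l0 | 1 => fr | _ => l)
    (fun i => match i with | 0 => n 0 | 1 => n (r + 1) | _ => m) hv0 ?_ ?_ ?_ ?_ (red.naj v0)
  · intro i hi
    interval_cases i
    · exact ⟨nv0 1 (by omega), arc.xn 1 (by omega) (by omega), pv0 0 (by omega) (by omega) l0 l0m,
        arc.far 0 (by omega) (by omega) l0 l0m, a1, nv0 0 (by omega), arc.xn 0 (by omega) (by omega)⟩
    · exact ⟨nv0 r (by omega), arc.xn r (by omega) (by omega), pv0 r (by omega) (by omega) fr frm,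
        arc.far r (by omega) (by omega) fr frm, a2, nv0 (r + 1) (by omega), arc.xn (r + 1) (by omega) (by omega)⟩
    · exact ⟨nv0 c (by omega), arc.xn c (by omega) (by omega), lv, lh, lc, mv, mh⟩
  · intro i hi j hj hij
    have p01 : l0 ∈ Far G (n r) := pf 0 r (by omega) (by omega) (by omega) (by omega) l0 l0m
    have p02 : l0 ∈ Far G (n c) := pf 0 c (by omega) (by omega) (by omega) (by omega) l0 l0m
    have p10 : fr ∈ Far G (n 1) := pf r 1 (by omega) (by omega) (by omega) (by omega) fr frm
    have p12 : fr ∈ Far G (n c) := pf r c (by omega) (by omega) (by omega) (by omega) fr frm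
    interval_cases i <;> interval_cases j
    · exact absurd rfl hij
    · exact ⟨a1r, p01⟩
    · exact ⟨k1.symm, p02⟩
    · exact ⟨a1r.symm, p10⟩
    · exact absurd rfl hij
    · exact ⟨kr.symm, p12⟩
    · exact ⟨k1, l1⟩
    · exact ⟨kr, lr⟩
    · exact absurd rfl hij
  · intro i hi j hj
    interval_cases i <;> interval_cases j
    · exact n0f 1 (by omega) (by omega)
    · exact n0f r (by omega) (by omega)
    · exact n0f c (by omega) (by omega)
    · exact nrf 1 (by omega) (by omega)
    · exact nrf r (by omega) (by omega)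
    · exact nrf c (by omega) (by omega)
    · exact m1
    · exact mr
    · exact mc
  · intro i hi j hj hij
    interval_cases i <;> interval_cases j
    · exact absurd rfl hij
    · exact cn0 r (by omega) (by omega)
    · exact cn0 c (by omega) (by omega)
    · exact cnr 1 (by omega) (by omega)
    · exact absurd rfl hij
    · exact cnr c (by omega) (by omega)
    · exact n1
    · exact nr
    · exact absurd rfl hij

/-- all `n i` in one clique: an even ring -/
theorem vw4_ring (hR : ST_RGE) (G : SimpleGraph V) (h : V) (n : ℕ → V) (P : ℕ → List V) (r : ℕ)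
    (hc : VW4c G h n P r) (ev : Even r) (a0r : G.Adj (n 0) (n (r + 1)))
    (hK : ∀ i j, 1 ≤ i → i ≤ r → 1 ≤ j → j ≤ r → i ≠ j → G.Adj (n i) (n j)) : False := by
  obtain ⟨red, r4, arc, nf, a1r⟩ := hc
  have pf : ∀ i j, i < r + 1 → j ≤ r + 1 → ∀ u ∈ P i, u ≠ n j := by
    intro i j hi hj u hu e
    have h3 := arc.far i (by omega) hi u hu
    apply h3.2
    rw [e]
    exact arc.xn j (by omega) hj
  -- the long link
  have hmem : ∀ u, u ∈ P r ++ (n (r + 1) :: n 0 :: P 0) ↔ u ∈ P r ∨ u = n (r + 1) ∨ u = n 0 ∨ u ∈ P 0 := by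
    intro u
    rw [List.mem_append, List.mem_cons, List.mem_cons]
  obtain ⟨f0, f0h, f0m⟩ := vw4_head (P 0) (arc.ne 0 (by omega) (by omega))
  obtain ⟨l0, l0h, l0m⟩ := vw4_last (P 0) (arc.ne 0 (by omega) (by omega))
  obtain ⟨fr, frh, frm⟩ := vw4_head (P r) (arc.ne r (by omega) (by omega))
  obtain ⟨lr, lrh, lrm⟩ := vw4_last (P r) (arc.ne r (by omega) (by omega))
  have hip0 : IPt G (n 0 :: P 0) := by
    refine ⟨?_, ?_, ?_, arc.ip 0 (by omega) (by omega)⟩
    · intro x hx e
      exact pf 0 0 (by omega) (by omega) x hx e.symm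
    · intro b hb
      have hbm : b ∈ P 0 := List.mem_of_mem_head? hb
      exact (arc.fst 0 (by omega) (by omega) b hbm).mpr hb
    · intro x hx hadj
      have hx' : x ∈ P 0 := List.mem_of_mem_tail hx
      have h5 := (arc.fst 0 (by omega) (by omega) x hx').mp hadj
      have h6 := arc.ip 0 (by omega) (by omega)
      cases hP : P 0 with
      | nil => rw [hP] at hx; simp at hx
      | cons b' l' =>
        rw [hP] at hx h5 h6
        have h7 : b' = x := by simpa using h5
        have h8 : x ∈ l' := by simpa using hx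
        exact h6.1 x h8 h7
  have hipr : IPt G (n (r + 1) :: n 0 :: P 0) := by
    refine ⟨?_, ?_, ?_, hip0⟩
    · intro x hx e
      rcases List.mem_cons.mp hx with h1 | h1
      · exact arc.inj 0 (r + 1) (by omega) (by omega) (by omega) (e.trans h1).symm
      · exact pf 0 (r + 1) (by omega) (by omega) x h1 e.symm
    · intro b hb
      have : n 0 = b := by simpa using hb
      rw [← this]; exact a0r.symm
    · intro x hx
      have hx' : x ∈ P 0 := by simpa using hx
      exact arc.cln 0 (r + 1) (by omega) (by omega) (by omega) (by omega) (by omega) (by omega) x hx'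
  have hlong : IPt G (P r ++ (n (r + 1) :: n 0 :: P 0)) := by
    apply vw4_join G _ _ (arc.ip r (by omega) (by omega)) hipr
    intro u hu w hw
    rcases List.mem_cons.mp hw with h1 | h1
    · rw [h1]
      refine ⟨pf r (r + 1) (by omega) (by omega) u hu, ?_⟩
      rw [G.adj_comm, arc.lst r (by omega) (by omega) u hu]
      constructor
      · intro e
        exact ⟨e, by simp⟩
      · intro e
        exact e.1
    · have h2 : u ≠ w ∧ ¬ G.Adj u w := by
        rcases List.mem_cons.mp h1 with h3 | h3
        · rw [h3]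
          refine ⟨pf r 0 (by omega) (by omega) u hu, fun e => ?_⟩
          exact arc.cln r 0 (by omega) (by omega) (by omega) (by omega) (by omega) (by omega) u hu e.symm
        · have h4 := arc.sep 0 r (by omega) (by omega) (by omega) w h3 u hu
          exact ⟨fun e => h4.1 e.symm, fun e => h4.2 e.symm⟩
      refine ⟨h2.1, ⟨fun e => absurd e h2.2, fun e => ?_⟩⟩
      exfalso
      have h5 : n (r + 1) = w := by simpa using e.2
      exact hipr.1 w h1 h5
  have hneL : P r ++ (n (r + 1) :: n 0 :: P 0) ≠ [] := by simp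
  have hheadL : (P r ++ (n (r + 1) :: n 0 :: P 0)).head? = (P r).head? := by
    cases hP : P r with
    | nil => exact absurd hP (arc.ne r (by omega) (by omega))
    | cons b l => simp
  have hlastL : (P r ++ (n (r + 1) :: n 0 :: P 0)).getLast? = (P 0).getLast? := by
    have hne := arc.ne 0 (by omega) (by omega)
    have e1 : P r ++ (n (r + 1) :: n 0 :: P 0) = (P r ++ [n (r + 1), n 0]) ++ P 0 := by simp
    rw [e1, List.getLast?_append_of_ne_nil _ hne]
  set P' : ℕ → List V := fun i => if i + 1 = r then P r ++ (n (r + 1) :: n 0 :: P 0) else P (i + 1) with hP'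
  have Pr : ∀ i, i + 1 = r → P' i = P r ++ (n (r + 1) :: n 0 :: P 0) := fun i hi => by rw [hP']; exact if_pos hi
  have Pl : ∀ i, i + 1 ≠ r → P' i = P (i + 1) := fun i hi => by rw [hP']; exact if_neg hi
  have hfar : ∀ i, i < r → ∀ j, j < r → ∀ x ∈ P' i, x ≠ n (j + 1) := by
    intro i hi j hj x hx
    by_cases h1 : i + 1 = r
    · rw [Pr i h1, hmem] at hx
      rcases hx with hx | hx | hx | hx
      · exact pf r (j + 1) (by omega) (by omega) x hx
      · rw [hx]; exact fun e => arc.inj (j + 1) (r + 1) (by omega) (by omega) (by omega) e.symm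
      · rw [hx]; exact arc.inj 0 (j + 1) (by omega) (by omega) (by omega)
      · exact pf 0 (j + 1) (by omega) (by omega) x hx
    · rw [Pl i h1] at hx
      exact pf (i + 1) (j + 1) (by omega) (by omega) x hx
  have hcl : ∀ i, i < r → ∀ j, 1 ≤ j → j ≤ r → j ≠ i + 1 → (i + 1 < r → j ≠ i + 2) → (i + 1 = r → j ≠ 1) →
      ∀ x ∈ P' i, ¬ G.Adj (n j) x := by
    intro i hi j hj0 hj h1 h2 h3 x hx
    by_cases h4 : i + 1 = r
    · rw [Pr i h4, hmem] at hx
      have h5 := h3 h4
      rcases hx with hx | hx | hx | hx
      · exact arc.cln r j (by omega) (by omega) (by omega) (by omega) (by omega) (by omega) x hx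
      · rw [hx]; exact fun e => (nf j hj0 hj).2 e.symm
      · rw [hx]; exact fun e => (nf j hj0 hj).1 e.symm
      · exact arc.cln 0 j (by omega) (by omega) (by omega) (by omega) (by omega) (by omega) x hx
    · rw [Pl i h4] at hx
      have h5 := h2 (by omega)
      exact arc.cln (i + 1) j (by omega) (by omega) (by omega) (by omega) (by omega) (by omega) x hx
  have hsep : ∀ i j, i < j → j < r → ∀ x ∈ P' i, ∀ y ∈ P' j, x ≠ y ∧ ¬ G.Adj x y := by
    intro i j hij hj x hx y hy
    rw [Pl i (by omega)] at hx
    by_cases h1 : j + 1 = r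
    · rw [Pr j h1, hmem] at hy
      rcases hy with hy | hy | hy | hy
      · exact arc.sep (i + 1) r (by omega) (by omega) (by omega) x hx y hy
      · rw [hy]
        exact ⟨pf (i + 1) (r + 1) (by omega) (by omega) x hx, fun e =>
          arc.cln (i + 1) (r + 1) (by omega) (by omega) (by omega) (by omega) (by omega) (by omega) x hx e.symm⟩
      · rw [hy]
        exact ⟨pf (i + 1) 0 (by omega) (by omega) x hx, fun e =>
          arc.cln (i + 1) 0 (by omega) (by omega) (by omega) (by omega) (by omega) (by omega) x hx e.symm⟩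
      · have h2 := arc.sep 0 (i + 1) (by omega) (by omega) (by omega) y hy x hx
        exact ⟨fun e => h2.1 e.symm, fun e => h2.2 e.symm⟩
    · rw [Pl j h1] at hy
      exact arc.sep (i + 1) (j + 1) (by omega) (by omega) (by omega) x hx y hy
  have hring : Ring G r (fun i => n (i + 1)) P' := by
    refine ⟨by omega, ?_, ?_, ?_, ?_, ?_, ?_, ?_, ?_⟩
    · intro i j hi hj hij
      exact hK (i + 1) (j + 1) (by omega) (by omega) (by omega) (by omega) (by omega)
    · intro i hi
      by_cases h1 : i + 1 = r
      · rw [Pr i h1, List.length_append, List.length_cons, List.length_cons]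
        omega
      · rw [Pl i h1]
        by_contra hlen
        have h2 := arc.ne (i + 1) (by omega) (by omega)
        cases hP : P (i + 1) with
        | nil => exact h2 hP
        | cons u l =>
          cases l with
          | cons u' l' =>
            rw [hP] at hlen
            simp at hlen
          | nil =>
            have hu : u ∈ P (i + 1) := by rw [hP]; simp
            have a1 : G.Adj (n (i + 1)) u := (arc.fst (i + 1) (by omega) (by omega) u hu).mpr (by rw [hP]; rfl)
            have a2 : G.Adj (n (i + 1 + 1)) u := (arc.lst (i + 1) (by omega) (by omega) u hu).mpr (by rw [hP]; rfl)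
            have a3 := hK (i + 1) (i + 1 + 1) (by omega) (by omega) (by omega) (by omega) (by omega)
            have a4 := arc.xn (i + 1) (by omega) (by omega)
            have a5 := arc.xn (i + 1 + 1) (by omega) (by omega)
            have a6 := arc.far (i + 1) (by omega) (by omega) u hu
            exact a6.2 (red.df (n (i + 1)) (n (i + 1 + 1)) h u a3 a4.symm a5.symm a1 a2 (fun e => a6.1 e.symm))
    · intro i hi
      by_cases h1 : i + 1 = r
      · rw [Pr i h1]; exact hlong
      · rw [Pl i h1]; exact arc.ip (i + 1) (by omega) (by omega)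
    · intro i hi x hx
      by_cases h1 : i + 1 = r
      · rw [Pr i h1] at hx ⊢
        rw [hmem] at hx
        rw [hheadL]
        show G.Adj (n (i + 1)) x ↔ _
        rw [h1]
        rcases hx with hx | hx | hx | hx
        · exact arc.fst r (by omega) (by omega) x hx
        · constructor
          · intro e
            rw [hx] at e
            exact absurd e.symm (nf r (by omega) (by omega)).2
          · intro e
            exact absurd hx (pf r (r + 1) (by omega) (by omega) x (List.mem_of_mem_head? e))
        · constructor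
          · intro e
            rw [hx] at e
            exact absurd e.symm (nf r (by omega) (by omega)).1
          · intro e
            exact absurd hx (pf r 0 (by omega) (by omega) x (List.mem_of_mem_head? e))
        · constructor
          · intro e
            exact absurd e (arc.cln 0 r (by omega) (by omega) (by omega) (by omega) (by omega) (by omega) x hx)
          · intro e
            exact absurd rfl (arc.sep 0 r (by omega) (by omega) (by omega) x hx x (List.mem_of_mem_head? e)).1
      · rw [Pl i h1] at hx ⊢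
        exact arc.fst (i + 1) (by omega) (by omega) x hx
    · intro i hi x hx
      by_cases h1 : i + 1 = r
      · rw [Pr i h1] at hx ⊢
        rw [hmem] at hx
        rw [hlastL]
        show G.Adj (n ((i + 1) % r + 1)) x ↔ _
        rw [h1, Nat.mod_self]
        rcases hx with hx | hx | hx | hx
        · constructor
          · intro e
            exact absurd e (arc.cln r 1 (by omega) (by omega) (by omega) (by omega) (by omega) (by omega) x hx)
          · intro e
            exact absurd rfl (arc.sep 0 r (by omega) (by omega) (by omega) x (List.mem_of_getLast? e) x hx).1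
        · constructor
          · intro e
            rw [hx] at e
            exact absurd e.symm (nf 1 (by omega) (by omega)).2
          · intro e
            exact absurd hx (pf 0 (r + 1) (by omega) (by omega) x (List.mem_of_getLast? e))
        · constructor
          · intro e
            rw [hx] at e
            exact absurd e.symm (nf 1 (by omega) (by omega)).1
          · intro e
            exact absurd hx (pf 0 0 (by omega) (by omega) x (List.mem_of_getLast? e))
        · exact arc.lst 0 (by omega) (by omega) x hx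
      · rw [Pl i h1] at hx ⊢
        show G.Adj (n ((i + 1) % r + 1)) x ↔ _
        rw [Nat.mod_eq_of_lt (by omega)]
        exact arc.lst (i + 1) (by omega) (by omega) x hx
    · intro i j hi hj h1 h2 x hx
      have h3 : i + 1 < r → (i + 1) % r = i + 1 := fun e => Nat.mod_eq_of_lt e
      have h4 : i + 1 = r → (i + 1) % r = 0 := fun e => by rw [e, Nat.mod_self]
      refine hcl i hi (j + 1) (by omega) (by omega) (by omega) (fun e => ?_) (fun e => ?_) x hx
      · rw [h3 e] at h2
        omega
      · rw [h4 e] at h2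
        omega
    · intro i j hi hj x hx
      exact hfar i hi j hj x hx
    · intro i j hi hj hij x hx y hy
      rcases lt_or_gt_of_ne hij with h1 | h1
      · exact hsep i j h1 hj x hx y hy
      · have h2 := hsep j i h1 hi y hy x hx
        exact ⟨fun e => h2.1 e.symm, fun e => h2.2 e.symm⟩
  refine hR V G {v | v ≠ h} r (fun i => n (i + 1)) P' hring ev r4 ?_ (red.naj h)
  intro i hi
  refine ⟨fun e => ?_, fun u hu e => ?_⟩
  · have := arc.xn (i + 1) (by omega) (by omega)
    rw [e] at this
    exact G.loopless.irrefl _ this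
  · have hu' : u = h := e
    by_cases h1 : i + 1 = r
    · rw [Pr i h1, hmem] at hu
      rcases hu with hu | hu | hu | hu
      · exact (arc.far r (by omega) (by omega) u hu).1 hu'
      · have := arc.xn (r + 1) (by omega) (by omega)
        rw [← hu, hu'] at this
        exact G.loopless.irrefl _ this
      · have := arc.xn 0 (by omega) (by omega)
        rw [← hu, hu'] at this
        exact G.loopless.irrefl _ this
      · exact (arc.far 0 (by omega) (by omega) u hu).1 hu'
    · rw [Pl i h1] at hu
      exact (arc.far (i + 1) (by omega) (by omega) u hu).1 hu'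

theorem st_VW4 (hR : ST_RGE) (hF2 : ST_F2X) (hF : ST_F1X) (hA : ST_ARC) (hC : ST_CNB) : ST_VW4 := by
  intro V G red h n P r r4 ev arc cov a0r nf a1r
  have hc : VW4c G h n P r := ⟨red, r4, arc, nf, a1r⟩
  have hx : ∀ i, i ≤ r + 1 → G.Adj h (n i) := fun i hi => arc.xn i (by omega) hi
  -- transitivity at `h`
  have tr : ∀ i j k, i ≤ r + 1 → j ≤ r + 1 → k ≤ r + 1 → i ≠ k → G.Adj (n i) (n j) → G.Adj (n j) (n k) →
      G.Adj (n i) (n k) := by
    intro i j k hi hj hk hik h1 h2
    have hne : n i ≠ n k := by
      rcases lt_or_gt_of_ne hik with h3 | h3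
      · exact arc.inj i k (by omega) h3 hk
      · exact fun e => arc.inj k i (by omega) h3 hi e.symm
    exact red.df h (n j) (n i) (n k) (hx j hj) (hx i hi) h1.symm (hx k hk) h2 hne
  set K : ℕ → Prop := fun i => i = 1 ∨ G.Adj (n i) (n 1) with hK
  have K1 : K 1 := Or.inl rfl
  have Kr : K r := Or.inr a1r.symm
  have KK : ∀ i j, i ≤ r + 1 → j ≤ r + 1 → i ≠ j → K i → K j → G.Adj (n i) (n j) := by
    intro i j hi hj hij h1 h2
    rcases h1 with h1 | h1
    · rcases h2 with h2 | h2
      · omega
      · rw [h1]; exact h2.symm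
    · rcases h2 with h2 | h2
      · rw [h2]; exact h1
      · exact tr i 1 j hi (by omega) hj hij h1 h2.symm
  have KN : ∀ i j, i ≤ r + 1 → j ≤ r + 1 → K i → ¬ K j → ¬ G.Adj (n i) (n j) := by
    intro i j hi hj h1 h2 h3
    apply h2
    rcases h1 with h1 | h1
    · right; rw [← h1]; exact h3.symm
    · by_cases hj1 : j = 1
      · exact Or.inl hj1
      · exact Or.inr (tr j i 1 hj hi (by omega) hj1 h3.symm h1)
  have nfar : ∀ i j, i ≤ r + 1 → j ≤ r + 1 → K i → ¬ K j → n j ∈ Far G (n i) := by
    intro i j hi hj h1 h2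
    refine ⟨?_, KN i j hi hj h1 h2⟩
    have hij : i ≠ j := fun e => h2 (e ▸ h1)
    rcases lt_or_gt_of_ne hij with h3 | h3
    · exact fun e => arc.inj i j (by omega) h3 hj e.symm
    · exact arc.inj j i (by omega) h3 hi
  have pf : ∀ i j, i < r + 1 → j ≤ r + 1 → j ≠ i → j ≠ i + 1 → ∀ u ∈ P i, u ∈ Far G (n j) := by
    intro i j hi hj h1 h2 u hu
    refine ⟨?_, arc.cln i j (by omega) hi (by omega) hj h1 h2 u hu⟩
    intro e
    have h3 := arc.far i (by omega) hi u hu
    apply h3.2
    rw [e]
    exact hx j hj
  obtain ⟨c1, c2, c3, c4, c5, c6, c7⟩ := hC V G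
  by_cases hall : ∀ i, 1 ≤ i → i ≤ r → K i
  · apply vw4_ring hR G h n P r hc ev a0r
    intro i j hi0 hi hj0 hj hij
    exact KK i j (by omega) (by omega) hij (hall i hi0 hi) (hall j hj0 hj)
  · push Not at hall
    obtain ⟨i0, i01, i0r, hi0⟩ := hall
    by_cases hmid : ∃ j, 2 ≤ j ∧ j < r ∧ K j
    · -- three ends
      obtain ⟨v0, v0h, v0m⟩ := vw4_head (P 1) (arc.ne 1 (by omega) (by omega))
      have v0f : v0 ∈ Far G h := arc.far 1 (by omega) (by omega) v0 v0m
      have nv0 : ∀ i, i ≤ r + 1 → n i ≠ v0 := by
        intro i hi e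
        apply v0f.2
        rw [← e]
        exact hx i hi
      have pv0 : ∀ i, i < r + 1 → i ≠ 1 → ∀ u ∈ P i, u ≠ v0 := by
        intro i hi hi1 u hu
        rcases lt_or_gt_of_ne hi1 with h1 | h1
        · exact (arc.sep i 1 (by omega) h1 (by omega) u hu v0 v0m).1
        · exact fun e => (arc.sep 1 i (by omega) h1 hi v0 v0m u hu).1 e.symm
      obtain ⟨s, s1, s2, s3, s4⟩ := vw4_step K (i0 - 1) 1 K1 (by
        rw [show 1 + (i0 - 1) = i0 by omega]; exact hi0)
      have sr : s + 1 ≠ r := fun e => s4 (e ▸ Kr)
      by_cases hs : s = 1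
      · -- the next element of `K`
        obtain ⟨j, j2, jr, hj⟩ := hmid
        have hK2 : ¬ K 2 := by rw [hs] at s4; exact s4
        obtain ⟨t, t1, t2, t3, t4⟩ := vw4_step (fun i => ¬ K i) (j - 2) 2 hK2 (by
          show ¬ ¬ K (2 + (j - 2))
          rw [show 2 + (j - 2) = j by omega]
          exact fun e => e hj)
        have t4' : K (t + 1) := by
          by_contra hc'
          exact t4 hc'
        obtain ⟨l, lh, lm⟩ := vw4_last (P t) (arc.ne t (by omega) (by omega))
        obtain ⟨f, fh, fm⟩ := vw4_head (P t) (arc.ne t (by omega) (by omega))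
        have cn : ∀ q, 1 ≤ q → q ≤ r → K q → q ≠ t + 1 → Cn G ({v | v ≠ v0} ∩ Far G (n q)) l (n t) := by
          intro q q1 qr hq hqt
          have hqt' : q ≠ t := fun e => t3 (e ▸ hq)
          have hS : ∀ u ∈ P t, u ∈ {v | v ≠ v0} ∩ Far G (n q) := fun u hu =>
            ⟨pv0 t (by omega) (by omega) u hu, pf t q (by omega) (by omega) hqt' hqt u hu⟩
          have e1 := vw4_cn hC G _ (P t) (arc.ip t (by omega) (by omega)) hS f fh l lm
          have e2 : Cn G ({v | v ≠ v0} ∩ Far G (n q)) f (n t) :=
            c4 _ f (n t) (hS f fm) ⟨nv0 t (by omega), nfar q t (by omega) (by omega) hq t3⟩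
              ((arc.fst t (by omega) (by omega) f fm).mpr fh).symm
          exact c2 _ _ _ _ (c1 _ _ _ e1).2 e2
        have k1 := KK (t + 1) 1 (by omega) (by omega) (by omega) t4' K1
        have kr := KK (t + 1) r (by omega) (by omega) (by omega) t4' Kr
        exact vw4_F1 hF hC G h n P r hc (t + 1) (by omega) (by omega) k1 kr v0 l (n t) v0m
          (arc.far t (by omega) (by omega) l lm) ((arc.lst t (by omega) (by omega) l lm).mpr lh)
          (pv0 t (by omega) (by omega) l lm) (nv0 t (by omega)) (hx t (by omega))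
          (pf t 1 (by omega) (by omega) (by omega) (by omega) l lm)
          (pf t r (by omega) (by omega) (by omega) (by omega) l lm)
          (nfar 1 t (by omega) (by omega) K1 t3) (nfar r t (by omega) (by omega) Kr t3)
          (nfar (t + 1) t (by omega) (by omega) t4' t3) (cn 1 (by omega) (by omega) K1 (by omega))
          (cn r (by omega) (by omega) Kr (by omega))
      · obtain ⟨l, lh, lm⟩ := vw4_last (P s) (arc.ne s (by omega) (by omega))
        obtain ⟨f, fh, fm⟩ := vw4_head (P s) (arc.ne s (by omega) (by omega))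
        have cn : ∀ q, 1 ≤ q → q ≤ r → K q → q ≠ s → Cn G ({v | v ≠ v0} ∩ Far G (n q)) f (n (s + 1)) := by
          intro q q1 qr hq hqs
          have hqs' : q ≠ s + 1 := fun e => s4 (e ▸ hq)
          have hS : ∀ u ∈ P s, u ∈ {v | v ≠ v0} ∩ Far G (n q) := fun u hu =>
            ⟨pv0 s (by omega) hs u hu, pf s q (by omega) (by omega) hqs hqs' u hu⟩
          have e1 := vw4_cn hC G _ (P s) (arc.ip s (by omega) (by omega)) hS f fh l lm
          have e2 : Cn G ({v | v ≠ v0} ∩ Far G (n q)) l (n (s + 1)) :=
            c4 _ l (n (s + 1)) (hS l lm) ⟨nv0 (s + 1) (by omega), nfar q (s + 1) (by omega) (by omega) hq s4⟩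
              ((arc.lst s (by omega) (by omega) l lm).mpr lh).symm
          exact c2 _ _ _ _ e1 e2
        have k1 := KK s 1 (by omega) (by omega) hs s3 K1
        have kr := KK s r (by omega) (by omega) (by omega) s3 Kr
        exact vw4_F1 hF hC G h n P r hc s (by omega) (by omega) k1 kr v0 f (n (s + 1)) v0m
          (arc.far s (by omega) (by omega) f fm) ((arc.fst s (by omega) (by omega) f fm).mpr fh)
          (pv0 s (by omega) hs f fm) (nv0 (s + 1) (by omega)) (hx (s + 1) (by omega))
          (pf s 1 (by omega) (by omega) (by omega) (by omega) f fm)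
          (pf s r (by omega) (by omega) (by omega) (by omega) f fm)
          (nfar 1 (s + 1) (by omega) (by omega) K1 s4) (nfar r (s + 1) (by omega) (by omega) Kr s4)
          (nfar s (s + 1) (by omega) (by omega) s3 s4) (cn 1 (by omega) (by omega) K1 (by omega))
          (cn r (by omega) (by omega) Kr (by omega))
    · -- one arc
      push Not at hmid
      have arc' := (hA V G h n P 0 (r + 1) arc).1 1 r (by omega) (by omega) (by omega)
      refine hF2 V G {v | v ≠ n 0} h n P 1 r arc' ?_ a1r ?_ (by omega) ?_ (red.naj (n 0))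
      · intro v hv
        rcases hv with hv | ⟨i, i1, i2, hv⟩ | ⟨i, i1, i2, hv⟩
        · rw [hv]
          intro e
          have := hx 0 (by omega)
          rw [← e] at this
          exact G.loopless.irrefl _ this
        · rw [hv]
          exact fun e => arc.inj 0 i (by omega) (by omega) (by omega) e.symm
        · exact (pf i 0 (by omega) (by omega) (by omega) (by omega) v hv).1
      · intro i i1 i2
        have h1 := hmid i (by omega) i2
        exact ⟨KN 1 i (by omega) (by omega) K1 h1, KN r i (by omega) (by omega) Kr h1⟩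
      · obtain ⟨q, hq⟩ := ev
        exact ⟨q - 1, by omega⟩

end Pool.Agent.Helper64.FL
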